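import Pool.Agent.Q295.PN.StmD

/-!
# Project PN, job D0: laws of the cells and of the marks
-/

set_option autoImplicit false

namespace Pool.Agent.Q285.PN

open MeasureTheory ProbabilityTheory Finset
open Pool.Agent.Q295.PN

/-- The uniform law on the interval. -/
noncomputable def un (n : ℕ) : Measure ℝ :=
  (ENNReal.ofReal (n : ℝ))⁻¹ • volume.restrict (Set.Icc (0 : ℝ) (n : ℝ))

instance un_sfinite (n : ℕ) : SFinite (un n) := by
  unfold un
  infer_instance

theorem un_univ {n : ℕ} (hn : 1 ≤ n) : un n Set.univ = 1 := by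
  unfold un
  have h0 : (0 : ℝ) < n := by exact_mod_cast hn
  rw [Measure.smul_apply, Measure.restrict_apply_univ, Real.volume_Icc, sub_zero, smul_eq_mul]
  exact ENNReal.inv_mul_cancel (ENNReal.ofReal_pos.2 h0).ne' ENNReal.ofReal_ne_top

theorem unif_eq {n : ℕ} (hn : 1 ≤ n) : unif n = (un n).prod (un n) := by
  unfold unif un
  have h0 : (0 : ℝ) < n := by exact_mod_cast hn
  have h1 : Set.Icc (0 : ℝ × ℝ) ((n : ℝ), (n : ℝ)) =
      Set.Icc (0 : ℝ) (n : ℝ) ×ˢ Set.Icc (0 : ℝ) (n : ℝ) := by
    rw [Set.Icc_prod_Icc]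
    rfl
  rw [Measure.prod_smul_left, Measure.prod_smul_right, smul_smul, h1, Measure.volume_eq_prod,
    Measure.prod_restrict]
  congr 1
  rw [pow_two, ENNReal.ofReal_mul h0.le, ENNReal.mul_inv]
  · left
    exact (ENNReal.ofReal_pos.2 h0).ne'
  · left
    exact ENNReal.ofReal_ne_top

theorem meas_cl (n M : ℕ) [NeZero M] : Measurable (cl n M) := by
  have h1 : cl n M = (fun k : ℕ => (⟨min k (M - 1), by have := NeZero.pos M; omega⟩ : Fin M)) ∘
      (fun x : ℝ => ⌊x * M / n⌋₊) := rfl
  rw [h1]
  exact (measurable_from_nat).comp (Nat.measurable_floor.comp (by fun_prop))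

theorem cl_eq {n M : ℕ} [NeZero M] (hn : 1 ≤ n) (a : Fin M) :
    un n {x | cl n M x = a} = ENNReal.ofReal (1 / M) := by
  have h0 : (0 : ℝ) < n := by exact_mod_cast hn
  have hM : 0 < M := NeZero.pos M
  have hM0 : (0 : ℝ) < M := by exact_mod_cast hM
  have hms : MeasurableSet {x | cl n M x = a} := meas_cl n M (measurableSet_singleton a)
  have ha : ((a : ℕ) : ℝ) + 1 ≤ M := by exact_mod_cast a.2
  unfold un
  rw [Measure.smul_apply, Measure.restrict_apply hms, smul_eq_mul]
  have hv : volume ({x | cl n M x = a} ∩ Set.Icc (0 : ℝ) (n : ℝ)) =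
      ENNReal.ofReal ((n : ℝ) / M) := by
    refine le_antisymm ?_ ?_
    · have h1 : {x | cl n M x = a} ∩ Set.Icc (0 : ℝ) (n : ℝ) ⊆
          Set.Icc ((a : ℕ) * (n : ℝ) / M) (((a : ℕ) + 1) * (n : ℝ) / M) := by
        rintro x ⟨hx, hx0, hxn⟩
        have hx' : min ⌊x * M / n⌋₊ (M - 1) = (a : ℕ) := congrArg Fin.val hx
        have hpos : 0 ≤ x * M / n := by positivity
        have h2 : (a : ℕ) ≤ ⌊x * M / n⌋₊ := by
          rw [← hx']
          exact min_le_left _ _
        have h3 : ((a : ℕ) : ℝ) ≤ x * M / n := (Nat.le_floor_iff hpos).1 h2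
        have h4 : x * M / n ≤ ((a : ℕ) : ℝ) + 1 := by
          rcases Nat.lt_or_ge ⌊x * M / n⌋₊ (M - 1) with h5 | h5
          · rw [min_eq_left h5.le] at hx'
            have h6 := Nat.lt_floor_add_one (x * M / n)
            rw [hx'] at h6
            exact h6.le
          · rw [min_eq_right h5] at hx'
            have h6 : ((a : ℕ) : ℝ) + 1 = M := by
              rw [← hx']
              exact_mod_cast (by omega : M - 1 + 1 = M)
            rw [h6, div_le_iff₀ h0]
            nlinarith
        rw [le_div_iff₀ h0] at h3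
        rw [div_le_iff₀ h0] at h4
        constructor
        · rw [div_le_iff₀ hM0]
          exact h3
        · rw [le_div_iff₀ hM0]
          exact h4
      refine (measure_mono h1).trans (le_of_eq ?_)
      rw [Real.volume_Icc]
      congr 1
      ring
    · have h1 : Set.Ioo ((a : ℕ) * (n : ℝ) / M) (((a : ℕ) + 1) * (n : ℝ) / M) ⊆
          {x | cl n M x = a} ∩ Set.Icc (0 : ℝ) (n : ℝ) := by
        rintro x ⟨hx1, hx2⟩
        rw [div_lt_iff₀ hM0] at hx1
        rw [lt_div_iff₀ hM0] at hx2
        have hx0 : 0 < x := by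
          have h2 : (0 : ℝ) ≤ (a : ℕ) * (n : ℝ) := by positivity
          by_contra h3
          push Not at h3
          nlinarith
        have hxn : x ≤ n := by
          by_contra h3
          push Not at h3
          nlinarith
        refine ⟨?_, hx0.le, hxn⟩
        have h4 : ⌊x * M / n⌋₊ = (a : ℕ) := by
          rw [Nat.floor_eq_iff (by positivity)]
          constructor
          · rw [le_div_iff₀ h0]
            exact hx1.le
          · rw [div_lt_iff₀ h0]
            exact hx2
        refine Fin.ext ?_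
        show min ⌊x * M / n⌋₊ (M - 1) = (a : ℕ)
        rw [h4]
        have := a.2
        omega
      refine le_trans (le_of_eq ?_) (measure_mono h1)
      rw [Real.volume_Ioo]
      congr 1
      ring
  rw [hv, ← ENNReal.ofReal_inv_of_pos h0, ← ENNReal.ofReal_mul (by positivity)]
  congr 1
  field_simp

theorem d0 : S_D0 := by
  intro n M K _ _ hn
  have hp : IsProbabilityMeasure (un n) := ⟨un_univ hn⟩
  have hr : ∀ (M : ℕ) [NeZero M] (a : Fin M), (un n).real {x | cl n M x = a} = 1 / M := by
    intro M _ a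
    rw [Measure.real, cl_eq hn, ENNReal.toReal_ofReal (by positivity)]
  rw [unif_eq hn]
  refine ⟨inferInstance, ?_, ?_, ?_, ?_, ⟨by simp⟩, ?_⟩
  · exact ((meas_cl n M).comp measurable_fst).prodMk ((meas_cl n K).comp measurable_snd)
  · intro c
    have h1 : {u : ℝ × ℝ | cell n M K u = c} =
        {x | cl n M x = c.1} ×ˢ {y | cl n K y = c.2} := by
      ext u
      exact Prod.ext_iff
    rw [h1, measureReal_prod_prod, hr, hr, one_div_mul_one_div]
  · intro a
    have h1 : {u : ℝ × ℝ | cl n M u.1 = a} = {x | cl n M x = a} ×ˢ Set.univ := by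
      ext u
      simp
    rw [h1, measureReal_prod_prod, hr, probReal_univ, mul_one]
  · intro b
    have h1 : {u : ℝ × ℝ | cl n K u.2 = b} = Set.univ ×ˢ {x | cl n K x = b} := by
      ext u
      simp
    rw [h1, measureReal_prod_prod, hr, probReal_univ, one_mul]
  · intro t ht0 ht1
    have h1 : MeasurableSet {m : ℝ | t ≤ m} := measurableSet_Ici
    rw [Measure.real, Measure.restrict_apply h1]
    have h2 : {m : ℝ | t ≤ m} ∩ Set.Icc 0 1 = Set.Icc t 1 := by
      ext m
      constructor
      · rintro ⟨a, b, c⟩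
        exact ⟨a, c⟩
      · rintro ⟨a, b⟩
        exact ⟨a, ht0.trans a, b⟩
    rw [h2, Real.volume_Icc, ENNReal.toReal_ofReal (by linarith)]

end Pool.Agent.Q285.PN
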