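import Pool.Agent.Q295.PN.StmD

/-!
# Project PN, job D5a: measurability of the longest chains
-/

set_option autoImplicit false

namespace Pool.Agent.Q285.PN

open MeasureTheory ProbabilityTheory Finset
open Pool.Agent.Q295.PN

/-- The points of a finite family with activity conditions. -/
def pts {ι : Type} (act : ι → Prop) (u : ι → ℝ × ℝ) : Set (ℝ × ℝ) := {p | ∃ i, act i ∧ u i = p}

theorem le_LL {ι : Type} [Fintype ι] (act : ι → Prop) (u : ι → ℝ × ℝ) (k : ℕ) :
    k ≤ LL (pts act u) ↔ ∃ J : Finset ι, J.card = k ∧ (∀ i ∈ J, act i) ∧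
      ∀ i ∈ J, ∀ j ∈ J, i ≠ j → u i ≠ u j ∧ (u i ≤ u j ∨ u j ≤ u i) := by
  classical
  have hfin : (pts act u).Finite := (Set.finite_range u).subset (by
    rintro p ⟨i, -, rfl⟩
    exact ⟨i, rfl⟩)
  set B : Set ℕ := {k : ℕ | ∃ S : Finset (ℝ × ℝ), (↑S : Set (ℝ × ℝ)) ⊆ pts act u ∧
    IsChain (· ≤ ·) (↑S : Set (ℝ × ℝ)) ∧ S.card = k} with hB
  have hbdd : BddAbove B := by
    refine ⟨hfin.toFinset.card, ?_⟩
    rintro m ⟨S, hS, -, rfl⟩
    refine Finset.card_le_card fun p hp => ?_
    rw [Set.Finite.mem_toFinset]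
    exact hS hp
  have hne : B.Nonempty := ⟨0, ∅, by simp, by simp, rfl⟩
  have hmem : LL (pts act u) ∈ B := Nat.sSup_mem hne hbdd
  constructor
  · intro hk
    obtain ⟨S, hS1, hS2, hS3⟩ := hmem
    obtain ⟨S', hS', hcard⟩ := Finset.exists_subset_card_eq (hk.trans hS3.ge)
    have h1 : ∀ p ∈ S', ∃ i, act i ∧ u i = p := fun p hp => hS1 (hS' hp)
    choose f hf1 hf2 using h1
    let g : {p // p ∈ S'} → ι := fun p => f p.1 p.2
    have hg : ∀ p, u (g p) = p.1 := fun p => hf2 p.1 p.2
    have hinj : Function.Injective g := by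
      intro p q h
      refine Subtype.ext ?_
      rw [← hg p, ← hg q, h]
    refine ⟨S'.attach.image g, by rw [Finset.card_image_of_injective _ hinj, card_attach, hcard],
      ?_, ?_⟩
    · intro i hi
      obtain ⟨p, -, rfl⟩ := Finset.mem_image.1 hi
      exact hf1 p.1 p.2
    · intro i hi j hj hij
      obtain ⟨p, -, rfl⟩ := Finset.mem_image.1 hi
      obtain ⟨q, -, rfl⟩ := Finset.mem_image.1 hj
      rw [hg p, hg q]
      have hpq : p.1 ≠ q.1 := fun h => hij (by rw [Subtype.ext h])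
      exact ⟨hpq, hS2 (hS' p.2) (hS' q.2) hpq⟩
  · rintro ⟨J, rfl, hJ1, hJ2⟩
    refine le_csSup hbdd ⟨J.image u, ?_, ?_, ?_⟩
    · intro p hp
      rw [Finset.mem_coe, Finset.mem_image] at hp
      obtain ⟨i, hi, rfl⟩ := hp
      exact ⟨i, hJ1 i hi, rfl⟩
    · intro p hp q hq hpq
      rw [Finset.mem_coe, Finset.mem_image] at hp hq
      obtain ⟨i, hi, rfl⟩ := hp
      obtain ⟨j, hj, rfl⟩ := hq
      exact (hJ2 i hi j hj (fun h => hpq (by rw [h]))).2
    · refine Finset.card_image_of_injOn fun i hi j hj h => ?_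
      by_contra hij
      exact (hJ2 i hi j hj hij).1 h

theorem meas_LL {ι : Type} [Fintype ι] {Ω : Type} [MeasurableSpace Ω] (act : ι → Ω → Prop)
    (u : ι → Ω → ℝ × ℝ) (hact : ∀ i, MeasurableSet {ω | act i ω}) (hu : ∀ i, Measurable (u i)) :
    Measurable fun ω => LL (pts (fun i => act i ω) (fun i => u i ω)) := by
  classical
  have hE : ∀ k : ℕ, MeasurableSet {ω | k ≤ LL (pts (fun i => act i ω) (fun i => u i ω))} := by
    intro k
    have h1 : {ω | k ≤ LL (pts (fun i => act i ω) (fun i => u i ω))} =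
        ⋃ J : Finset ι, {ω | J.card = k ∧ (∀ i ∈ J, act i ω) ∧
          ∀ i ∈ J, ∀ j ∈ J, i ≠ j → u i ω ≠ u j ω ∧ (u i ω ≤ u j ω ∨ u j ω ≤ u i ω)} := by
      ext ω
      rw [Set.mem_iUnion]
      exact le_LL _ _ k
    rw [h1]
    refine MeasurableSet.iUnion fun J => ?_
    refine (MeasurableSet.const _).inter (MeasurableSet.inter ?_ ?_)
    · have h2 : {ω | ∀ i ∈ J, act i ω} = ⋂ i ∈ J, {ω | act i ω} := by
        ext ω
        simp
      have h3 : MeasurableSet {ω | ∀ i ∈ J, act i ω} := by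
        rw [h2]
        exact Finset.measurableSet_biInter J fun i _ => hact i
      exact h3
    · have h2 : {ω | ∀ i ∈ J, ∀ j ∈ J, i ≠ j → u i ω ≠ u j ω ∧ (u i ω ≤ u j ω ∨ u j ω ≤ u i ω)} =
          ⋂ i ∈ J, ⋂ j ∈ J, {ω | i ≠ j → u i ω ≠ u j ω ∧ (u i ω ≤ u j ω ∨ u j ω ≤ u i ω)} := by
        ext ω
        simp
      suffices h4 : MeasurableSet {ω | ∀ i ∈ J, ∀ j ∈ J, i ≠ j →
          u i ω ≠ u j ω ∧ (u i ω ≤ u j ω ∨ u j ω ≤ u i ω)} from h4
      rw [h2]
      refine Finset.measurableSet_biInter J fun i _ =>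
        Finset.measurableSet_biInter J fun j _ => ?_
      by_cases hij : i = j
      · have h3 : {ω | i ≠ j → u i ω ≠ u j ω ∧ (u i ω ≤ u j ω ∨ u j ω ≤ u i ω)} = Set.univ := by
          ext ω
          simp [hij]
        rw [h3]
        exact MeasurableSet.univ
      · have h3 : {ω | i ≠ j → u i ω ≠ u j ω ∧ (u i ω ≤ u j ω ∨ u j ω ≤ u i ω)} =
            {ω | u i ω = u j ω}ᶜ ∩ ({ω | u i ω ≤ u j ω} ∪ {ω | u j ω ≤ u i ω}) := by
          ext ω
          simp [hij]
        rw [h3]
        exact (measurableSet_eq_fun (hu i) (hu j)).compl.inter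
          ((measurableSet_le (hu i) (hu j)).union (measurableSet_le (hu j) (hu i)))
  refine measurable_to_countable' fun k => ?_
  have h1 : (fun ω => LL (pts (fun i => act i ω) (fun i => u i ω))) ⁻¹' {k} =
      {ω | k ≤ LL (pts (fun i => act i ω) (fun i => u i ω))} \
        {ω | k + 1 ≤ LL (pts (fun i => act i ω) (fun i => u i ω))} := by
    ext ω
    show LL (pts (fun i => act i ω) (fun i => u i ω)) = k ↔
      k ≤ LL (pts (fun i => act i ω) (fun i => u i ω)) ∧
        ¬ (k + 1 ≤ LL (pts (fun i => act i ω) (fun i => u i ω)))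
    omega
  rw [h1]
  exact (hE k).diff (hE (k + 1))

theorem d5a : S_D5a := by
  intro t Ω _ C Z hC hZ
  constructor
  · have h1 : Measurable fun q : (ℕ × ℕ) × Ω => LL (eta q.1 fun i => Z i q.2) := by
      refine measurable_from_prod_countable_right fun c => ?_
      have h2 := meas_LL (ι := Fin c.1) (fun _ _ => True) (fun i ω => (Z i ω).1.1)
        (fun i => MeasurableSet.const _) (fun i => (hZ i).fst.fst)
      have h3 : (fun ω => LL (eta c fun i => Z i ω)) =
          fun ω => LL (pts (fun _ : Fin c.1 => True) fun i => (Z i ω).1.1) := by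
        funext ω
        refine congrArg LL ?_
        ext p
        constructor
        · rintro ⟨i, hi, h⟩
          exact ⟨⟨i, hi⟩, trivial, h⟩
        · rintro ⟨i, -, h⟩
          exact ⟨i, i.2, h⟩
      show Measurable fun ω => LL (eta c fun i => Z i ω)
      rw [h3]
      exact h2
    exact measurable_from_top.comp (h1.comp (hC.prodMk measurable_id))
  · have h1 : Measurable fun q : (ℕ × ℕ) × Ω => LL (etat t q.1 fun i => Z i q.2) := by
      refine measurable_from_prod_countable_right fun c => ?_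
      have h2 := meas_LL (ι := Fin c.1 ⊕ Fin c.2)
        (fun i ω => Sum.elim (fun i : Fin c.1 => (t : ℝ) ≤ (Z i ω).1.2) (fun _ => True) i)
        (fun i ω => Sum.elim (fun i : Fin c.1 => (Z i ω).1.1) (fun j : Fin c.2 => (Z j ω).2) i)
        (by
          rintro (i | j)
          · exact measurableSet_le measurable_const (hZ i).fst.snd
          · exact MeasurableSet.const _)
        (by
          rintro (i | j)
          · exact (hZ i).fst.fst
          · exact (hZ j).snd)
      have h3 : (fun ω => LL (etat t c fun i => Z i ω)) =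
          fun ω => LL (pts (fun i => Sum.elim (fun i : Fin c.1 => (t : ℝ) ≤ (Z i ω).1.2)
            (fun _ : Fin c.2 => True) i)
            fun i => Sum.elim (fun i : Fin c.1 => (Z i ω).1.1) (fun j : Fin c.2 => (Z j ω).2) i) := by
        funext ω
        refine congrArg LL ?_
        ext p
        constructor
        · rintro (⟨i, hi, h, h'⟩ | ⟨j, hj, h'⟩)
          · exact ⟨Sum.inl ⟨i, hi⟩, h, h'⟩
          · exact ⟨Sum.inr ⟨j, hj⟩, trivial, h'⟩
        · rintro ⟨i | j, h, h'⟩
          · exact Or.inl ⟨i, i.2, h, h'⟩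
          · exact Or.inr ⟨j, j.2, h'⟩
      show Measurable fun ω => LL (etat t c fun i => Z i ω)
      rw [h3]
      exact h2
    exact measurable_from_top.comp (h1.comp (hC.prodMk measurable_id))

end Pool.Agent.Q285.PN
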