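import Pool.Agent.Q295.PN.StmD

/-!
# Project PN, job D5c: two labelled points in the same column or row
-/

set_option autoImplicit false

namespace Pool.Agent.Q285.PN

open MeasureTheory ProbabilityTheory Finset
open Pool.Agent.Q295.PN

/-- Two independent variables with uniform law on `Fin m` agree with probability `1 / m`. -/
theorem same_eq {Ω : Type} [MeasurableSpace Ω] (P : Measure Ω) [IsProbabilityMeasure P] {m : ℕ}
    (hm : 0 < m) {X Y : Ω → Fin m} (hX : Measurable X) (hY : Measurable Y) (h : IndepFun X Y P)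
    (h1 : ∀ a, P.real {ω | X ω = a} = 1 / m) (h2 : ∀ a, P.real {ω | Y ω = a} = 1 / m) :
    P.real {ω | X ω = Y ω} = 1 / m := by
  have hm0 : (0 : ℝ) < m := by exact_mod_cast hm
  have e1 : {ω | X ω = Y ω} = ⋃ a ∈ (Finset.univ : Finset (Fin m)), {ω | X ω = a} ∩ {ω | Y ω = a} := by
    ext ω
    simp only [Set.mem_ofPred_eq, Finset.mem_univ, Set.iUnion_true, Set.mem_iUnion, Set.mem_inter_iff]
    constructor
    · intro h
      exact ⟨X ω, rfl, h.symm⟩
    · rintro ⟨a, h3, h4⟩
      rw [h3, h4]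
  have hmX : ∀ a, MeasurableSet {ω | X ω = a} := fun a => hX (measurableSet_singleton a)
  have hmY : ∀ a, MeasurableSet {ω | Y ω = a} := fun a => hY (measurableSet_singleton a)
  rw [e1, measureReal_biUnion_finset]
  · have e2 : ∀ a ∈ (Finset.univ : Finset (Fin m)), P.real ({ω | X ω = a} ∩ {ω | Y ω = a}) =
        1 / m * (1 / m) := by
      intro a _
      have h3 := h.measure_inter_preimage_eq_mul {a} {a} (measurableSet_singleton a)
        (measurableSet_singleton a)
      have h4 : P ({ω | X ω = a} ∩ {ω | Y ω = a}) = P {ω | X ω = a} * P {ω | Y ω = a} := h3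
      rw [Measure.real, h4, ENNReal.toReal_mul]
      exact congrArg₂ _ (h1 a) (h2 a)
    rw [Finset.sum_congr rfl e2, Finset.sum_const, Finset.card_univ, Fintype.card_fin, nsmul_eq_mul]
    field_simp
  · intro a _ b _ hab
    rw [Function.onFun, Set.disjoint_left]
    rintro ω ⟨h3, -⟩ ⟨h4, -⟩
    exact hab (h3.symm.trans h4)
  · exact fun a _ => (hmX a).inter (hmY a)

/-- Two independent points with the uniform law on the square. -/
theorem pair_le (h0 : S_D0) {n M K : ℕ} [NeZero M] [NeZero K] (hn : 1 ≤ n) {Ω : Type}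
    [MeasurableSpace Ω] (P : Measure Ω) [IsProbabilityMeasure P] {U V : Ω → ℝ × ℝ}
    (hU : Measurable U) (hV : Measurable V) (h : IndepFun U V P) (h1 : Measure.map U P = unif n)
    (h2 : Measure.map V P = unif n) :
    P.real {ω | cl n M (U ω).1 = cl n M (V ω).1 ∨ cl n K (U ω).2 = cl n K (V ω).2} ≤
      1 / M + 1 / K := by
  obtain ⟨-, hm, -, ha, hb, -, -⟩ := h0 n M K hn
  have hc1 : Measurable fun u : ℝ × ℝ => cl n M u.1 := measurable_fst.comp hm
  have hc2 : Measurable fun u : ℝ × ℝ => cl n K u.2 := measurable_snd.comp hm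
  have e1 := same_eq P (NeZero.pos M) (hc1.comp hU) (hc1.comp hV) (h.comp hc1 hc1)
    (fun a => by
      rw [← ha a, ← h1]
      exact (map_measureReal_apply hU (hc1 (measurableSet_singleton a))).symm)
    (fun a => by
      rw [← ha a, ← h2]
      exact (map_measureReal_apply hV (hc1 (measurableSet_singleton a))).symm)
  have e2 := same_eq P (NeZero.pos K) (hc2.comp hU) (hc2.comp hV) (h.comp hc2 hc2)
    (fun a => by
      rw [← hb a, ← h1]
      exact (map_measureReal_apply hU (hc2 (measurableSet_singleton a))).symm)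
    (fun a => by
      rw [← hb a, ← h2]
      exact (map_measureReal_apply hV (hc2 (measurableSet_singleton a))).symm)
  have e3 : {ω | cl n M (U ω).1 = cl n M (V ω).1 ∨ cl n K (U ω).2 = cl n K (V ω).2} =
      {ω | ((fun u : ℝ × ℝ => cl n M u.1) ∘ U) ω = ((fun u : ℝ × ℝ => cl n M u.1) ∘ V) ω} ∪
      {ω | ((fun u : ℝ × ℝ => cl n K u.2) ∘ U) ω = ((fun u : ℝ × ℝ => cl n K u.2) ∘ V) ω} := rfl
  rw [e3]
  refine (measureReal_union_le _ _).trans ?_
  rw [e1, e2]

theorem d5c : S_D5c := by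
  intro h0 n M K _ _ t Ω _ P C Z hn hS
  have hP : IsProbabilityMeasure P := hS.prob
  obtain ⟨hu, -, -, -, -, hI, -⟩ := h0 n M K hn
  have hZ := hS.mZ
  have mU : ∀ i, Measurable fun ω => (Z i ω).1.1 := fun i => (hZ i).fst.fst
  have mV : ∀ i, Measurable fun ω => (Z i ω).2 := fun i => (hZ i).snd
  have l1 : ∀ i, Measure.map (fun ω => (Z i ω).1) P =
      (unif n).prod (volume.restrict (Set.Icc (0 : ℝ) 1)) := by
    intro i
    have e1 : (fun ω => (Z i ω).1) = Prod.fst ∘ Z i := rfl
    rw [e1, ← Measure.map_map measurable_fst (hZ i), hS.lawZ i, Measure.map_fst_prod, measure_univ,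
      one_smul]
  have lU : ∀ i, Measure.map (fun ω => (Z i ω).1.1) P = unif n := by
    intro i
    have e1 : (fun ω => (Z i ω).1.1) = Prod.fst ∘ fun ω => (Z i ω).1 := rfl
    rw [e1, ← Measure.map_map measurable_fst (hZ i).fst, l1 i, Measure.map_fst_prod, measure_univ,
      one_smul]
  have lV : ∀ i, Measure.map (fun ω => (Z i ω).2) P = unif n := by
    intro i
    have e1 : (fun ω => (Z i ω).2) = Prod.snd ∘ Z i := rfl
    rw [e1, ← Measure.map_map measurable_snd (hZ i), hS.lawZ i, Measure.map_snd_prod, measure_univ,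
      one_smul]
  have hind : ∀ i j, i ≠ j → IndepFun (Z i) (Z j) P := fun i j hij => hS.indZ.indepFun hij
  have hself : ∀ i, IndepFun (fun ω => (Z i ω).1) (fun ω => (Z i ω).2) P := by
    intro i
    rw [indepFun_iff_map_prod_eq_prod_map_map (hZ i).fst.aemeasurable (hZ i).snd.aemeasurable, l1 i,
      lV i]
    exact hS.lawZ i
  refine ⟨fun i j hij => ?_, fun i j hij => ?_, fun i j => ?_⟩
  · exact pair_le h0 hn P (mU i) (mU j)
      ((hind i j hij).comp (φ := fun z : ((ℝ × ℝ) × ℝ) × (ℝ × ℝ) => z.1.1)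
        (ψ := fun z : ((ℝ × ℝ) × ℝ) × (ℝ × ℝ) => z.1.1) (by fun_prop) (by fun_prop)) (lU i) (lU j)
  · exact pair_le h0 hn P (mV i) (mV j)
      ((hind i j hij).comp (φ := fun z : ((ℝ × ℝ) × ℝ) × (ℝ × ℝ) => z.2)
        (ψ := fun z : ((ℝ × ℝ) × ℝ) × (ℝ × ℝ) => z.2) (by fun_prop) (by fun_prop)) (lV i) (lV j)
  · rcases eq_or_ne i j with rfl | hij
    · exact pair_le h0 hn P (mU i) (mV i)
        ((hself i).comp (φ := fun z : (ℝ × ℝ) × ℝ => z.1) (ψ := fun z : ℝ × ℝ => z) (by fun_prop)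
          (by fun_prop)) (lU i) (lV i)
    · exact pair_le h0 hn P (mU i) (mV j)
        ((hind i j hij).comp (φ := fun z : ((ℝ × ℝ) × ℝ) × (ℝ × ℝ) => z.1.1)
          (ψ := fun z : ((ℝ × ℝ) × ℝ) × (ℝ × ℝ) => z.2) (by fun_prop) (by fun_prop)) (lU i) (lV j)

end Pool.Agent.Q285.PN
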